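import Pool.Agent.H71.TwoBridge.ShortProof

/-!
# Dihedral factorisation of twisted Alexander polynomials of two-bridge knots

The definitions are in `Pool.Agent.H71.TwoBridge.Short`.
-/

set_option autoImplicit false

namespace Pool.Agent.Results.MP_d521c2_gt.TwoBridgeDihedral

open LaurentPolynomial TBD

/-- Let `G` be the group of the two-bridge knot `S(a, b)`, `p` an odd prime, `⟨g_0, …, g_m | r_1, …,
r_m⟩` any presentation of `G` of deficiency one, `φ` an epimorphism onto `ℤ = ⟨t⟩` and `δ` one onto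
`D_p`.  Let `D_p` act on `ℤ/p` by `ϱ` (`y = r 1` by `n ↦ n - 1`, `x = sr 0` by `n ↦ -n`) and let `σ`
be the substitution `t ↦ -t`.  There are `D` and `f` in `ℤ[t, t⁻¹]` such that `D` generates the
Alexander ideal, some `det Φ(g_j - 1)` is not `0`, and for all such `j` Wada's polynomial
`T = num / den` satisfies `(1 - t) T = ± t^k D(t) f(t) f(-t)`. -/
theorem result (a : ℕ) (b : ℤ) (ha : Odd a) (hb : Odd b) (hab : IsCoprime (a : ℤ) b) (p : ℕ)
    [Fact p.Prime] (hp : p ≠ 2) (G : Type) [Group G] (ω : FreeGroup (Fin 2) →* G)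
    (hω : Pres {rel a b} ω) (m : ℕ) (r : Fin m → FreeGroup (Fin (m + 1)))
    (π : FreeGroup (Fin (m + 1)) →* G) (hπ : Pres (Set.range r) π)
    (φ : G →* Multiplicative ℤ) (hφ : Function.Surjective φ)
    (δ : G →* DihedralGroup p) (hδ : Function.Surjective δ) :
    ∃ (ϱ : DihedralGroup p →* Equiv.Perm (ZMod p)) (σ : ℤ[T;T⁻¹] →+* ℤ[T;T⁻¹]) (D f : ℤ[T;T⁻¹]),
      (∀ n, ϱ (.r 1) n = n - 1 ∧ ϱ (.sr 0) n = -n) ∧ σ (T 1) = -T 1 ∧
      Ideal.span {D} =
        Ideal.span (Set.range fun j => (jac (fun g => T (φ (π g)).toAdd) r j).det) ∧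
      (∃ j, den (φ.comp π) (ϱ.comp (δ.comp π)) j ≠ 0) ∧
      ∀ j, den (φ.comp π) (ϱ.comp (δ.comp π)) j ≠ 0 → ∃ (s : ℕ) (k : ℤ),
        (1 - T 1) * num (φ.comp π) (ϱ.comp (δ.comp π)) r j =
          (-1) ^ s * T k * (D * f * σ f) * den (φ.comp π) (ϱ.comp (δ.comp π)) j :=
  short a b ha hb hab p hp G ω hω m r π hπ φ hφ δ hδ

end Pool.Agent.Results.MP_d521c2_gt.TwoBridgeDihedral
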